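import Pool.Agent.W788.NV.Stm

/-! Project NV (helper788, MP_1c1c61_pr): the variance inequality. -/

set_option autoImplicit false

namespace Pool.Agent.W15.NV

open Finset Pool.Agent.W788.NV

section

variable {V : Type} [Fintype V] [DecidableEq V] (G : SimpleGraph V) (q : ℕ) (θ : ℝ)

/-- law of the random map -/
noncomputable def rho (t : ℝ) (Ψ : Mp V q) : ℝ := ex G q θ t (fun Φ => if Φ = Ψ then 1 else 0)

theorem ex_eq (h : MK) (t : ℝ) (F : Mp V q → ℝ) :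
    ex G q θ t F = ∑ Ψ, rho G q θ t Ψ * F Ψ := by
  have h1 := h.lin (Mp V q) _ (Mp V q) (mrate G q θ) (mR (V := V) (q := q)) F
    (fun Ψ Φ => if Φ = Ψ then 1 else 0) id t
  have e : (fun y : Mp V q => ∑ k, F k * (if y = k then 1 else 0)) = F := by
    funext y
    simp
  rw [e] at h1
  unfold ex
  rw [h1]
  apply Finset.sum_congr rfl
  intro Ψ _
  rw [mul_comm]
  rfl

theorem rho_nonneg (h : MK) (hR : ∀ e, 0 ≤ mrate G q θ e) (t : ℝ) (ht : 0 ≤ t) (Ψ : Mp V q) :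
    0 ≤ rho G q θ t Ψ := by
  have h1 := h.mono (Mp V q) _ (mrate G q θ) (mR (V := V) (q := q)) (fun _ => 0)
    (fun Φ => if Φ = Ψ then 1 else 0) id t hR ht (by
      intro y
      split_ifs <;> norm_num)
  rw [h.cst] at h1
  exact h1

theorem rho_sum (h : MK) (t : ℝ) : ∑ Ψ, rho G q θ t Ψ = 1 := by
  have h1 := ex_eq G q θ h t (fun _ => 1)
  have h2 : ex G q θ t (fun _ => 1) = 1 := h.cst _ _ _ _ _ _ _
  rw [h2] at h1
  simpa using h1.symm

end

/-- Cauchy-Schwarz for a probability vector and an indicator -/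
theorem cs_ind {κ : Type} [Fintype κ] (ρ Y : κ → ℝ) (hρ : ∀ k, 0 ≤ ρ k) (P : κ → Prop)
    [DecidablePred P] (hY : ∀ k, ¬ P k → Y k = 0) :
    (∑ k, ρ k * Y k) ^ 2 ≤ (∑ k, ρ k * (if P k then 1 else 0)) * ∑ k, ρ k * Y k ^ 2 := by
  have h1 : ∑ k, ρ k * Y k = ∑ k, (Real.sqrt (ρ k) * (if P k then 1 else 0)) *
      (Real.sqrt (ρ k) * Y k) := by
    apply Finset.sum_congr rfl
    intro k _
    have h2 := Real.mul_self_sqrt (hρ k)
    by_cases hk : P k
    · rw [if_pos hk]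
      calc ρ k * Y k = (Real.sqrt (ρ k) * Real.sqrt (ρ k)) * Y k := by rw [h2]
        _ = _ := by ring
    · rw [if_neg hk, hY k hk]
      ring
  have h3 := Finset.sum_mul_sq_le_sq_mul_sq univ
    (fun k => Real.sqrt (ρ k) * (if P k then 1 else 0)) (fun k => Real.sqrt (ρ k) * Y k)
  rw [← h1] at h3
  refine h3.trans (le_of_eq ?_)
  congr 1
  · apply Finset.sum_congr rfl
    intro k _
    rw [mul_pow, Real.sq_sqrt (hρ k)]
    split_ifs <;> norm_num
  · apply Finset.sum_congr rfl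
    intro k _
    rw [mul_pow, Real.sq_sqrt (hρ k)]

theorem main_ (h : MK) (h1 : S_VAR) (h2 : S_TOT) (h3 : S_BND) (h4 : S_LOC) (h5 : S_EVA) :
    S_MAIN := by
  classical
  intro V _ _ G q θ Δ hq hθ0 hθ1 hdg hdg2 s r M g x0 hs hr hM hg
  obtain ⟨hR, hT⟩ := h2 V G q θ hq hθ0.le hθ1 hdg
  set R := mrate G q θ with hRdef
  let S : ℝ → (Mp V q → ℝ) → Mp V q → ℝ := fun t F => sg R (mR (V := V) (q := q)) t F
  set ρ := rho G q θ r with hρdef
  have hρ0 : ∀ Ψ, 0 ≤ ρ Ψ := rho_nonneg G q θ h hR r hr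
  have hρ1 : ∑ Ψ, ρ Ψ = 1 := rho_sum G q θ h r
  let GP : Mp V q → Mp V q → ℝ := fun Ψ Φ => g (Ψ (Φ x0))
  let Gt : Mp V q → ℝ := fun Φ => pt G q θ r g (Φ x0)
  set p : ℝ := Δ * Real.exp (-θ * r) with hp
  have hp0 : 0 ≤ p := by positivity
  set κ : ℝ := Real.exp (θ / 2 - θ * M / (2 * Δ)) with hκ
  have hGt : ∀ Φ, Gt Φ = ∑ Ψ, ρ Ψ * GP Ψ Φ := by
    intro Φ
    have e1 := (h5 V G q θ r).1 g (Φ x0)
    rw [ex_eq G q θ h] at e1
    exact e1.symm
  have hS : ∀ t Φ, S t Gt Φ = ∑ Ψ, ρ Ψ * S t (GP Ψ) Φ := by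
    intro t Φ
    have e1 : Gt = fun Φ => ∑ Ψ, ρ Ψ * GP Ψ Φ := funext hGt
    rw [e1]
    exact h.lin _ _ _ R _ ρ GP Φ t
  have hb0 : ∀ t, 0 ≤ t → ∀ Ψ Φ, 0 ≤ S t (GP Ψ) Φ := by
    intro t ht Ψ Φ
    have e1 := h.mono (Mp V q) _ R (mR (V := V) (q := q)) (fun _ => 0) (GP Ψ) Φ t hR ht
      (fun y => (hg _).1)
    rwa [h.cst] at e1
  have hb1 : ∀ t, 0 ≤ t → ∀ Ψ Φ, S t (GP Ψ) Φ ≤ 1 := by
    intro t ht Ψ Φ
    have e1 := h.mono (Mp V q) _ R (mR (V := V) (q := q)) (GP Ψ) (fun _ => 1) Φ t hR ht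
      (fun y => (hg _).2)
    rwa [h.cst] at e1
  -- the pointwise estimate
  have key : ∀ t, 0 ≤ t → ∀ (e : (V × Fin q) ⊕ (V × V)) (Φ : Mp V q),
      (S t Gt (mR e Φ) - S t Gt Φ) ^ 2 ≤
        p * M * ∑ Ψ, ρ Ψ * (S t (GP Ψ) (mR e Φ) - S t (GP Ψ) Φ) ^ 2 +
          (if M < ((dep Φ (site e)).card : ℝ) then 1 else 0) := by
    intro t ht e Φ
    set Y : Mp V q → ℝ := fun Ψ => S t (GP Ψ) (mR e Φ) - S t (GP Ψ) Φ with hY
    have e1 : S t Gt (mR e Φ) - S t Gt Φ = ∑ Ψ, ρ Ψ * Y Ψ := by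
      rw [hS, hS, ← Finset.sum_sub_distrib]
      apply Finset.sum_congr rfl
      intro Ψ _
      simp only [hY]
      ring
    rw [e1]
    have hQ0 : 0 ≤ ∑ Ψ, ρ Ψ * Y Ψ ^ 2 :=
      Finset.sum_nonneg fun Ψ _ => mul_nonneg (hρ0 Ψ) (sq_nonneg _)
    by_cases hc : M < ((dep Φ (site e)).card : ℝ)
    · rw [if_pos hc]
      have hYabs : ∀ Ψ, |Y Ψ| ≤ 1 := by
        intro Ψ
        rw [abs_le]
        have a1 := hb0 t ht Ψ Φ
        have a2 := hb1 t ht Ψ Φ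
        have a3 := hb0 t ht Ψ (mR e Φ)
        have a4 := hb1 t ht Ψ (mR e Φ)
        constructor
        · simp only [hY]; linarith
        · simp only [hY]; linarith
      have e2 : |∑ Ψ, ρ Ψ * Y Ψ| ≤ 1 := by
        calc |∑ Ψ, ρ Ψ * Y Ψ| ≤ ∑ Ψ, |ρ Ψ * Y Ψ| := Finset.abs_sum_le_sum_abs _ _
          _ ≤ ∑ Ψ, ρ Ψ := by
            apply Finset.sum_le_sum
            intro Ψ _
            rw [abs_mul, abs_of_nonneg (hρ0 Ψ)]
            calc ρ Ψ * |Y Ψ| ≤ ρ Ψ * 1 := mul_le_mul_of_nonneg_left (hYabs Ψ) (hρ0 Ψ)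
              _ = ρ Ψ := mul_one _
          _ = 1 := hρ1
      have e3 : (∑ Ψ, ρ Ψ * Y Ψ) ^ 2 ≤ 1 := by
        rw [← sq_abs]
        exact pow_le_one₀ (abs_nonneg _) e2
      have e4 : 0 ≤ p * M * ∑ Ψ, ρ Ψ * Y Ψ ^ 2 := by positivity
      linarith
    · rw [if_neg hc, add_zero]
      rw [not_lt] at hc
      have hYz : ∀ Ψ, ¬ (∃ w ∈ dep Φ (site e), (dep Ψ w).Nonempty) → Y Ψ = 0 := by
        intro Ψ hΨ
        have a1 : ∀ w ∈ dep Φ (site e), dep Ψ w = ∅ := by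
          intro w hw
          by_contra hne
          exact hΨ ⟨w, hw, Finset.nonempty_iff_ne_empty.2 hne⟩
        have a2 := h4 V q Ψ Φ e a1
        simp only [hY]
        have a3 := (h5 V G q θ t).2 (GP Ψ) (mR e Φ)
        have a4 := (h5 V G q θ t).2 (GP Ψ) Φ
        show sg R (mR (V := V) (q := q)) t (GP Ψ) (mR e Φ) -
          sg R (mR (V := V) (q := q)) t (GP Ψ) Φ = 0
        rw [a3, a4, sub_eq_zero]
        congr 1
        funext Θ
        simp only [GP, mR]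
        rw [a2]
      have e2 := cs_ind ρ Y hρ0 (fun Ψ => ∃ w ∈ dep Φ (site e), (dep Ψ w).Nonempty) hYz
      refine e2.trans (mul_le_mul_of_nonneg_right ?_ hQ0)
      have e3 : ∑ Ψ, ρ Ψ * (if ∃ w ∈ dep Φ (site e), (dep Ψ w).Nonempty then 1 else 0) ≤
          ∑ Ψ, ρ Ψ * ∑ w ∈ dep Φ (site e), (if (dep Ψ w).Nonempty then 1 else 0) := by
        apply Finset.sum_le_sum
        intro Ψ _
        apply mul_le_mul_of_nonneg_left _ (hρ0 Ψ)
        by_cases hex : ∃ w ∈ dep Φ (site e), (dep Ψ w).Nonempty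
        · rw [if_pos hex]
          obtain ⟨w, hw, hwn⟩ := hex
          have a1 : (1 : ℝ) = (if (dep Ψ w).Nonempty then 1 else 0) := by rw [if_pos hwn]
          refine le_trans (le_of_eq a1) ?_
          exact Finset.single_le_sum (f := fun w => if (dep Ψ w).Nonempty then (1 : ℝ) else 0)
            (fun i _ => by
              show (0 : ℝ) ≤ if (dep Ψ i).Nonempty then (1 : ℝ) else 0
              split_ifs <;> norm_num) hw
        · rw [if_neg hex]
          exact Finset.sum_nonneg fun i _ => by split_ifs <;> norm_num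
      refine e3.trans ?_
      have e4 : ∑ Ψ, ρ Ψ * ∑ w ∈ dep Φ (site e), (if (dep Ψ w).Nonempty then (1 : ℝ) else 0) =
          ∑ w ∈ dep Φ (site e), ex G q θ r (fun Φ => if (dep Φ w).Nonempty then 1 else 0) := by
        simp only [Finset.mul_sum]
        rw [Finset.sum_comm]
        apply Finset.sum_congr rfl
        intro w _
        rw [ex_eq G q θ h]
      rw [e4]
      have e5 : ∑ w ∈ dep Φ (site e), ex G q θ r (fun Φ => if (dep Φ w).Nonempty then 1 else 0) ≤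
          ∑ _w ∈ dep Φ (site e), p := by
        apply Finset.sum_le_sum
        intro w _
        exact (h3 V G q θ Δ hq hθ0 hθ1 hdg hdg2 w r hr).2.2.2.2
      rw [Finset.sum_const, nsmul_eq_mul] at e5
      refine e5.trans ?_
      rw [mul_comm]
      exact mul_le_mul_of_nonneg_left hc hp0
  -- the estimate for the carre du champ
  have hgam : ∀ t, 0 ≤ t → ∀ Φ : Mp V q,
      gam R (mR (V := V) (q := q)) (S t Gt) Φ ≤
        p * M * ∑ Ψ, ρ Ψ * gam R (mR (V := V) (q := q)) (S t (GP Ψ)) Φ +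
          ∑ v, (if M < ((dep Φ v).card : ℝ) then 1 else 0) := by
    intro t ht Φ
    have e1 : gam R (mR (V := V) (q := q)) (S t Gt) Φ ≤
        ∑ e, R e * (p * M * ∑ Ψ, ρ Ψ * (S t (GP Ψ) (mR e Φ) - S t (GP Ψ) Φ) ^ 2 +
          (if M < ((dep Φ (site e)).card : ℝ) then 1 else 0)) := by
      unfold gam
      apply Finset.sum_le_sum
      intro e _
      exact mul_le_mul_of_nonneg_left (key t ht e Φ) (hR e)
    refine e1.trans (le_of_eq ?_)
    simp only [mul_add]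
    rw [Finset.sum_add_distrib]
    congr 1
    · unfold gam
      simp only [Finset.mul_sum]
      rw [Finset.sum_comm]
      apply Finset.sum_congr rfl
      intro Ψ _
      apply Finset.sum_congr rfl
      intro e _
      ring
    · exact hT (fun v => if M < ((dep Φ v).card : ℝ) then 1 else 0)
  -- energies
  let VH : (Mp V q → ℝ) → ℝ → ℝ := fun H τ => S τ (fun y => (S (s - τ) H y) ^ 2) id
  have hVd : ∀ (H : Mp V q → ℝ) (τ : ℝ),
      HasDerivAt (VH H) (S τ (gam R (mR (V := V) (q := q)) (S (s - τ) H)) id) τ := by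
    intro H τ
    exact h1 (Mp V q) _ R (mR (V := V) (q := q)) H id s τ
  have hder : ∀ τ, 0 ≤ τ → τ ≤ s →
      S τ (gam R (mR (V := V) (q := q)) (S (s - τ) Gt)) id ≤
        p * M * ∑ Ψ, ρ Ψ * S τ (gam R (mR (V := V) (q := q)) (S (s - τ) (GP Ψ))) id +
          Fintype.card V * κ := by
    intro τ hτ0 hτs
    have e1 := h.mono (Mp V q) _ R (mR (V := V) (q := q)) _ _ id τ hR hτ0
      (hgam (s - τ) (by linarith))
    refine e1.trans ?_
    have e2 : sg R (mR (V := V) (q := q)) τ (fun Φ => p * M * ∑ Ψ, ρ Ψ *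
          gam R (mR (V := V) (q := q)) (S (s - τ) (GP Ψ)) Φ +
          ∑ v, (if M < ((dep Φ v).card : ℝ) then 1 else 0)) id =
        p * M * ∑ Ψ, ρ Ψ * S τ (gam R (mR (V := V) (q := q)) (S (s - τ) (GP Ψ))) id +
          ∑ v, ex G q θ τ (fun Φ => if M < ((dep Φ v).card : ℝ) then 1 else 0) := by
      have e3 := ex_eq G q θ h τ (fun Φ => p * M * ∑ Ψ, ρ Ψ *
          gam R (mR (V := V) (q := q)) (S (s - τ) (GP Ψ)) Φ +
          ∑ v, (if M < ((dep Φ v).card : ℝ) then 1 else 0))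
      have e4 : ∀ Ψ, S τ (gam R (mR (V := V) (q := q)) (S (s - τ) (GP Ψ))) id =
          ∑ Ω, rho G q θ τ Ω * gam R (mR (V := V) (q := q)) (S (s - τ) (GP Ψ)) Ω := fun Ψ =>
        ex_eq G q θ h τ _
      refine Eq.trans e3 ?_
      simp only [e4, ex_eq G q θ h, mul_add, Finset.sum_add_distrib]
      congr 1
      · simp only [Finset.mul_sum]
        rw [Finset.sum_comm]
        apply Finset.sum_congr rfl
        intro Ψ _
        apply Finset.sum_congr rfl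
        intro Ω _
        ring
      · simp only [Finset.mul_sum]
        rw [Finset.sum_comm]
    rw [e2]
    have e5 : ∑ v, ex G q θ τ (fun Φ => if M < ((dep Φ v).card : ℝ) then 1 else 0) ≤
        ∑ _v : V, κ := by
      apply Finset.sum_le_sum
      intro v _
      exact (h3 V G q θ Δ hq hθ0 hθ1 hdg hdg2 v τ hτ0).2.2.1 M hM
    rw [Finset.sum_const, nsmul_eq_mul, Finset.card_univ] at e5
    linarith
  -- the monotone function
  let D : ℝ → ℝ := fun τ => p * M * ∑ Ψ, ρ Ψ * VH (GP Ψ) τ + τ * (Fintype.card V * κ) - VH Gt τ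
  have hD : ∀ τ, HasDerivAt D (p * M * ∑ Ψ, ρ Ψ *
      S τ (gam R (mR (V := V) (q := q)) (S (s - τ) (GP Ψ))) id + Fintype.card V * κ -
        S τ (gam R (mR (V := V) (q := q)) (S (s - τ) Gt)) id) τ := by
    intro τ
    have a1 : HasDerivAt (fun τ => ∑ Ψ, ρ Ψ * VH (GP Ψ) τ) (∑ Ψ, ρ Ψ *
      S τ (gam R (mR (V := V) (q := q)) (S (s - τ) (GP Ψ))) id) τ :=
      HasDerivAt.fun_sum fun Ψ _ => (hVd (GP Ψ) τ).const_mul (ρ Ψ)
    have a2 : HasDerivAt (fun τ : ℝ => τ * ((Fintype.card V : ℝ) * κ))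
        ((Fintype.card V : ℝ) * κ) τ := by
      simpa using (hasDerivAt_id τ).mul_const ((Fintype.card V : ℝ) * κ)
    exact ((a1.const_mul (p * M)).add a2).sub (hVd Gt τ)
  have hmono : MonotoneOn D (Set.Icc 0 s) := by
    apply monotoneOn_of_deriv_nonneg (convex_Icc 0 s)
    · exact fun τ _ => (hD τ).continuousAt.continuousWithinAt
    · exact fun τ _ => (hD τ).differentiableAt.differentiableWithinAt
    · intro τ hτ
      rw [interior_Icc] at hτ
      rw [(hD τ).deriv]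
      have := hder τ hτ.1.le hτ.2.le
      linarith
  have hfin := hmono (Set.left_mem_Icc.2 hs) (Set.right_mem_Icc.2 hs) hs
  -- the values at the ends
  have hVs : VH Gt s = pt G q θ s (fun x => (pt G q θ r g x) ^ 2) x0 := by
    have e1 := (h5 V G q θ s).1 (fun x => (pt G q θ r g x) ^ 2) x0
    rw [← e1]
    show sg R (mR (V := V) (q := q)) s (fun y => (sg R (mR (V := V) (q := q)) (s - s) Gt y) ^ 2)
      id = _
    rw [sub_self, h.zero]
    rfl
  have hV0 : VH Gt 0 = (pt G q θ s (pt G q θ r g) x0) ^ 2 := by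
    have e1 := (h5 V G q θ s).1 (pt G q θ r g) x0
    rw [← e1]
    show sg R (mR (V := V) (q := q)) 0 (fun y => (sg R (mR (V := V) (q := q)) (s - 0) Gt y) ^ 2)
      id = _
    rw [sub_zero, h.zero]
    rfl
  have hVG1 : ∀ Ψ, VH (GP Ψ) s ≤ 1 := by
    intro Ψ
    have e1 := h.mono (Mp V q) _ R (mR (V := V) (q := q))
      (fun y => (S (s - s) (GP Ψ) y) ^ 2) (fun _ => 1) id s hR hs (by
        intro y
        exact pow_le_one₀ (hb0 _ (by linarith) Ψ y) (hb1 _ (by linarith) Ψ y))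
    rwa [h.cst] at e1
  have hVG0 : ∀ Ψ, 0 ≤ VH (GP Ψ) 0 := by
    intro Ψ
    have e1 := h.mono (Mp V q) _ R (mR (V := V) (q := q)) (fun _ => 0)
      (fun y => (S (s - 0) (GP Ψ) y) ^ 2) id 0 hR le_rfl (fun y => sq_nonneg _)
    rwa [h.cst] at e1
  have hs1 : ∑ Ψ, ρ Ψ * VH (GP Ψ) s ≤ 1 := by
    calc ∑ Ψ, ρ Ψ * VH (GP Ψ) s ≤ ∑ Ψ, ρ Ψ * 1 :=
          Finset.sum_le_sum fun Ψ _ => mul_le_mul_of_nonneg_left (hVG1 Ψ) (hρ0 Ψ)
      _ = 1 := by simp [hρ1]
  have hs0 : 0 ≤ ∑ Ψ, ρ Ψ * VH (GP Ψ) 0 :=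
    Finset.sum_nonneg fun Ψ _ => mul_nonneg (hρ0 Ψ) (hVG0 Ψ)
  have hpM : 0 ≤ p * M := mul_nonneg hp0 hM
  have f1 : p * M * ∑ Ψ, ρ Ψ * VH (GP Ψ) s ≤ p * M * 1 := mul_le_mul_of_nonneg_left hs1 hpM
  have f2 : 0 ≤ p * M * ∑ Ψ, ρ Ψ * VH (GP Ψ) 0 := mul_nonneg hpM hs0
  rw [← hVs, ← hV0]
  simp only [D] at hfin
  rw [zero_mul, add_zero] at hfin
  have f3 : s * (Fintype.card V : ℝ) * κ = s * ((Fintype.card V : ℝ) * κ) := by ring
  rw [f3]
  linarith

end Pool.Agent.W15.NV
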